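import Pool.Agent.W679.AM.Stm

/-!
# Kalai's flag conjecture from the lens method: definitions

Complex side: `H712MA`, `W679AM.S_FC6` (unchanged).  New lens with parameter `a > 0`:
`h(z) = (4a/pi) sum_{n odd} z^n / (n (n + i a))`, `z h'(z) + i a h(z) = (2a/pi) log((1+z)/(1-z))`.
-/

set_option autoImplicit false

noncomputable section

open MeasureTheory Filter Topology
open scoped BigOperators Matrix ENNReal

namespace Pool.Agent.TH209.FL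

open H712MA W679AM

/-! ### the lens -/

/-- the lens map -/
def hF (a : ℝ) (z : ℂ) : ℂ :=
  ((4 * a / Real.pi : ℝ) : ℂ) *
    ∑' n : ℕ, z ^ (2 * n + 1) / (((2 * n + 1 : ℕ) : ℂ) * (((2 * n + 1 : ℕ) : ℂ) + a * Complex.I))

/-- its derivative -/
def hG (a : ℝ) (z : ℂ) : ℂ :=
  ((4 * a / Real.pi : ℝ) : ℂ) *
    ∑' n : ℕ, z ^ (2 * n) / (((2 * n + 1 : ℕ) : ℂ) + a * Complex.I)

/-- `log ((1+z)/(1-z))` -/
def LO (z : ℂ) : ℂ := LL 0 z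

/-- the lens -/
def WF (a : ℝ) : Set ℂ := hF a '' Metric.ball (0 : ℂ) 1

open Classical in
/-- inverse of `hF a` (value `1` off the lens) -/
def eF (a : ℝ) (p : ℂ) : ℂ :=
  if hp : ∃ z, z ∈ Metric.ball (0 : ℂ) 1 ∧ hF a z = p then Classical.choose hp else 1

open Classical in
/-- `Im (z h'(z))` at `p = h(z)` (zero off the lens) -/
def vF (a : ℝ) (p : ℂ) : ℝ := if p ∈ WF a then (eF a p * hG a (eF a p)).im else 0

/-- the function `q`, with values in `[0,1]`, tending to one at the boundary -/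
def qF (a : ℝ) (p : ℂ) : ℝ :=
  if 0 ≤ vF a p then vF a p / (a * (1 - p.re)) else -(vF a p) / (a * (1 + p.re))

/-- a Funk lens: what is used on the real side -/
structure FLens where
  L : Lens
  a : ℝ
  v : ℂ → ℝ
  q : ℂ → ℝ
  a_pos : 0 < a
  meas_e : Measurable L.e
  meas_v : Measurable v
  cont_v : ContinuousOn v L.W
  meas_q : Measurable q
  re_le : ∀ p ∈ L.W, |p.re| ≤ Real.tanh (Real.pi * a / 2)
  q_nonneg : ∀ p, 0 ≤ q p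
  q_le : ∀ p, q p ≤ 1
  mono : ∀ x y y' : ℝ, (⟨x, y⟩ : ℂ) ∈ L.W → (⟨x, y'⟩ : ℂ) ∈ L.W → y < y' → v ⟨x, y⟩ < v ⟨x, y'⟩
  up : ∀ x y y' : ℝ, (⟨x, y⟩ : ℂ) ∈ L.W → (⟨x, y'⟩ : ℂ) ∈ L.W → y < y' → 0 ≤ v ⟨x, y⟩ →
    ‖L.e ⟨x, y⟩‖ < ‖L.e ⟨x, y'⟩‖
  down : ∀ x y y' : ℝ, (⟨x, y⟩ : ℂ) ∈ L.W → (⟨x, y'⟩ : ℂ) ∈ L.W → y < y' → v ⟨x, y'⟩ ≤ 0 →
    ‖L.e ⟨x, y'⟩‖ < ‖L.e ⟨x, y⟩‖
  q_eq : ∀ x y : ℝ, (⟨x, y⟩ : ℂ) ∈ L.W →
    v ⟨x, y⟩ = a * q ⟨x, y⟩ * (if 0 ≤ v ⟨x, y⟩ then 1 - x else -(1 + x))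
  der : ∀ m : ℕ, 1 ≤ m → ∀ x y : ℝ, (⟨x, y⟩ : ℂ) ∈ L.W →
    HasDerivAt (fun t : ℝ => ‖gf L m ⟨x, t⟩‖ ^ 2)
      (2 / m * af L m ⟨x, y⟩ * v ⟨x, y⟩) y
  conc : Tendsto (fun m : ℕ => (∫⁻ p, ENNReal.ofReal (af L m p * (1 - q p))) / (m : ℝ≥0∞))
    atTop (𝓝 0)
  area : ∀ m : ℕ, 1 ≤ m → ∫⁻ p, ENNReal.ofReal (af L m p) = ENNReal.ofReal (m * Real.pi)

/-- L9: the lenses exist -/
def S_L9 : Prop := ∀ a : ℝ, 0 < a → ∃ A : FLens, A.a = a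

/-! ### the real inequality -/

/-- `tau K`, `K = {|l_k| <= 1}` -/
def tK {κ : Type} {n : ℕ} (t : ℝ) (l : κ → Fin n → ℝ) : Set (Fin n → ℝ) :=
  {x | ∀ k, |l k ⬝ᵥ x| ≤ t}

/-- the polar of a set `K` with respect to the point `x` -/
def polx {n : ℕ} (K : Set (Fin n → ℝ)) (x : Fin n → ℝ) : Set (Fin n → ℝ) :=
  {y | ∀ z ∈ K, (z - x) ⬝ᵥ y ≤ 1}

/-- the Funk–Mahler inequality for polytopes `{|l_k| <= 1}` -/
def S_ZF : Prop :=
  ∀ (κ : Type) [Fintype κ] (n : ℕ) (a : ℝ), 0 < a → ∀ (l : κ → Fin n → ℝ), Spans l →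
    ENNReal.ofReal ((2 * Real.pi * a) ^ n / n.factorial) ≤
      ∫⁻ x in tK (Real.tanh (Real.pi * a / 2)) l, volume (polx (tK 1 l) x)

/-! ### chains of active sets -/

variable {d : ℕ}

/-- `A` is the exact active set of the functional `m` on `S` -/
def IsAct (S A : Finset (Fin d → ℝ)) (m : Fin d → ℝ) : Prop :=
  (∀ z ∈ A, m ⬝ᵥ z = 1) ∧ ∀ z ∈ S, z ∉ A → m ⬝ᵥ z < 1

/-- `A` is a (nonempty) active set of `S` -/
def Act (S A : Finset (Fin d → ℝ)) : Prop := A.Nonempty ∧ A ⊆ S ∧ ∃ m, IsAct S A m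

open Classical in
/-- a functional with exact active set `A` -/
def mm (S A : Finset (Fin d → ℝ)) : Fin d → ℝ := if h : ∃ m, IsAct S A m then Classical.choose h else 0

open Classical in
/-- complete chains of active sets -/
def Chn (S : Finset (Fin d → ℝ)) : Finset (Fin d → Finset (Fin d → ℝ)) :=
  (Fintype.piFinset fun _ => S.powerset).filter fun f => StrictMono f ∧ ∀ i, Act S (f i)

/-- the matrix of the functionals of a chain -/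
def MM (S : Finset (Fin d → ℝ)) (f : Fin d → Finset (Fin d → ℝ)) : Matrix (Fin d) (Fin d) ℝ :=
  Matrix.of fun i j => mm S (f i) j

end Pool.Agent.TH209.FL
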