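import Pool.Agent.TH209.FL.Defs

/-! # Statements of the lens part -/

set_option autoImplicit false

noncomputable section

open MeasureTheory Filter Topology
open scoped BigOperators Matrix ENNReal

namespace Pool.Agent.TH209.FL

open H712MA W679AM

/-- L1: the series -/
def S_L1 : Prop :=
  ∀ a : ℝ, 0 < a →
    (∀ z : ℂ, ‖z‖ < 1 → HasDerivAt (hF a) (hG a z) z) ∧
    DifferentiableOn ℂ (hG a) (Metric.ball 0 1) ∧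
    (∃ C : ℝ, ∀ z : ℂ, ‖z‖ < 1 → ‖hF a z‖ ≤ C * ‖z‖) ∧
    hG a 0 = ((4 * a / Real.pi : ℝ) : ℂ) / (1 + a * Complex.I) ∧
    (∀ z : ℂ, ‖z‖ < 1 → z * hG a z + a * Complex.I * hF a z = ((2 * a / Real.pi : ℝ) : ℂ) * LO z)

/-- L2: positivity and width -/
def S_L2 : Prop :=
  ∀ a : ℝ, 0 < a → ∀ z : ℂ, ‖z‖ < 1 →
    0 < ((1 - z ^ 2) * hG a z).re ∧ |(hF a z).re| ≤ Real.tanh (Real.pi * a / 2)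

/-- L3: the divided difference -/
def S_L3 : Prop :=
  ∀ a : ℝ, 0 < a → ∀ z w : ℂ, ‖z‖ < 1 → ‖w‖ < 1 →
    ∃ A : ℂ, 0 < A.re ∧ hF a z - hF a w = (LO z - LO w) * A

/-- L5: lower bound of the derivative -/
def S_L5 : Prop :=
  ∀ a : ℝ, 0 < a → ∃ B : ℝ, 0 < B ∧ ∀ z : ℂ, ‖z‖ < 1 → 1 ≤ B * ‖hG a z‖

/-- L6: the inverse and the lens -/
def S_L6 : Prop :=
  ∀ a : ℝ, 0 < a →
    IsOpen (WF a) ∧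
    (∀ p ∈ WF a, ‖eF a p‖ < 1 ∧ hF a (eF a p) = p) ∧
    (∀ z : ℂ, ‖z‖ < 1 → eF a (hF a z) = z) ∧
    (∀ p, p ∉ WF a → eF a p = 1) ∧
    (∀ p ∈ WF a, HasDerivAt (eF a) (1 / hG a (eF a p)) p) ∧
    Measurable (eF a) ∧ Continuous (fun p => ‖eF a p‖) ∧ Measurable (vF a) ∧
    ContinuousOn (vF a) (WF a) ∧
    ∃ (L : Lens) (w : ℂ), ‖w‖ = 1 ∧ L.W = WF a ∧ (∀ p ∈ WF a, L.e p = w * eF a p) ∧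
      (∀ p, ‖L.e p‖ = ‖eF a p‖)

/-- L7: vertical slices -/
def S_L7 : Prop :=
  ∀ a : ℝ, 0 < a →
    (∀ x y y' : ℝ, (⟨x, y⟩ : ℂ) ∈ WF a → (⟨x, y'⟩ : ℂ) ∈ WF a → y < y' →
      vF a ⟨x, y⟩ < vF a ⟨x, y'⟩) ∧
    (∀ x y y' : ℝ, (⟨x, y⟩ : ℂ) ∈ WF a → (⟨x, y'⟩ : ℂ) ∈ WF a → y < y' →
      0 ≤ vF a ⟨x, y⟩ → ‖eF a ⟨x, y⟩‖ < ‖eF a ⟨x, y'⟩‖) ∧
    (∀ x y y' : ℝ, (⟨x, y⟩ : ℂ) ∈ WF a → (⟨x, y'⟩ : ℂ) ∈ WF a → y < y' →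
      vF a ⟨x, y'⟩ ≤ 0 → ‖eF a ⟨x, y'⟩‖ < ‖eF a ⟨x, y⟩‖) ∧
    (∀ L : Lens, L.W = WF a → (∀ w : ℂ, ‖w‖ = 1 → (∀ p ∈ WF a, L.e p = w * eF a p) →
      ∀ m : ℕ, 1 ≤ m → ∀ x y : ℝ, (⟨x, y⟩ : ℂ) ∈ WF a →
      HasDerivAt (fun t : ℝ => ‖gf L m ⟨x, t⟩‖ ^ 2)
        (2 / m * af L m ⟨x, y⟩ * vF a ⟨x, y⟩) y))

/-- L8: integrals of `a` and concentration at the boundary -/
def S_L8 : Prop :=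
  ∀ a : ℝ, 0 < a → ∀ L : Lens, L.W = WF a → ∀ w : ℂ, ‖w‖ = 1 → (∀ p ∈ WF a, L.e p = w * eF a p) →
    (∀ m : ℕ, 1 ≤ m → ∫⁻ p, ENNReal.ofReal (af L m p) = ENNReal.ofReal (m * Real.pi)) ∧
    Tendsto (fun m : ℕ => (∫⁻ p, ENNReal.ofReal (af L m p * (1 - qF a p))) / (m : ℝ≥0∞))
      atTop (𝓝 0)

end Pool.Agent.TH209.FL
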